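import Mathlib
import Pool.Agent.MP_9a65c4_lc.Defs
import Pool.Agent.MP_9a65c4_lc.ThreeM

open Pool.Agent.MP_9a65c4_lc

/-- Below the complement of every non-computable c.e. set `C` there is a co-d.c.e. set `Eᶜ ∪ V`
of quasi-minimal enumeration degree that computes a non-computable continuous functional. -/
theorem Pool.Agent.MP_9a65c4_lc.Old.threeCE (C : Set ℕ) (hC : REPred (· ∈ C))
    (hC' : ¬ ComputablePred (· ∈ C)) :
    ∃ E V : Set ℕ, REPred (· ∈ E) ∧ REPred (· ∈ V) ∧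
      Reduces (enumNames (Eᶜ ∪ V)) (enumNames Cᶜ) ∧
      (¬ REPred (· ∈ Eᶜ ∪ V) ∧ ∀ y : ℕ → ℕ, Reduces {y} (enumNames (Eᶜ ∪ V)) → Computable y) ∧
      ∃ Φ : (ℕ → ℕ) → ℕ, Continuous Φ ∧ (¬ ∃ α ∈ associates Φ, Computable α) ∧
        Reduces (associates Φ) (enumNames (Eᶜ ∪ V)) :=
  Th.three C hC hC'
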